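import Pool.Agent.H87.EBK.Stmts3

set_option autoImplicit false

namespace Pool.EBK

theorem bigw87 (hSTR : STRW) (hTRI : TRI) (hDIF : DIF) (hVDI : VDI) (hPIG : PIG) (hDSZ : DSZ) : BIGW := by
  intro a b B r hR
  obtain ⟨k, hka, hkb, hk⟩ := hSTR a b hR
  have ha : 0 < a := hR.1
  have hb : 0 < b := hR.2.1
  set B' : ℚ := max B 1 with hB'
  have hB1 : B ≤ B' := le_max_left _ _
  have hB0 : 0 < B' := lt_of_lt_of_le one_pos (le_max_right _ _)
  set n₀ : ℕ := (k - r).toNat + 1 with hn₀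
  have hd : ∀ n : ℕ, ∃ d, Third a b d ∧ v d = k - ((n₀ + n : ℕ) : ℤ) := fun n => hk (n₀ + n)
  choose d hd hv using hd
  have hvr : ∀ n, v (d n) < r := by
    intro n
    rw [hv n]
    have : k - r ≤ ((k - r).toNat : ℤ) := Int.self_le_toNat _
    push_cast [hn₀]
    omega
  have hva : ∀ n, v (d n) < v a := by
    intro n
    rw [hv n]
    push_cast
    omega
  have hvb : ∀ n, v (d n) < v b := by
    intro n
    rw [hv n]
    push_cast
    omega
  by_cases hex : ∃ n, B' < d n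
  · obtain ⟨n, hn⟩ := hex
    exact ⟨d n, hd n, lt_of_le_of_lt hB1 hn, hvr n, hva n, hvb n⟩
  push Not at hex
  have htri : ∀ n, ∃ u w, Tri a b (d n) u w := fun n => (hTRI a b (d n) ha hb).1 (hd n)
  choose u w ht using htri
  have hw : ∀ n, w n ≤ b + B' := by
    intro n
    obtain ⟨h1, h2, h3, h4, h5⟩ := ht n
    have h6 : d n ^ 2 ≤ B' ^ 2 := pow_le_pow_left₀ h1.le (hex n) 2
    refine abs_le_of_sq_le_sq' ?_ (by positivity) |>.2
    nlinarith [mul_pos hb hB0]
  have hu : ∀ n, a ≤ u n := by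
    intro n
    obtain ⟨h1, h2, h3, h4, h5⟩ := ht n
    refine abs_le_of_sq_le_sq' ?_ h2.le |>.2
    nlinarith [sq_nonneg (d n)]
  obtain ⟨n, m, hnm, hlt⟩ := hPIG (fun n => d n * w n / u n) (B' * (b + B') / a)
    (a ^ 2 * b ^ 2 / ((a + B') ^ 2 * B')) (by
      intro n
      obtain ⟨h1, h2, h3, h4, h5⟩ := ht n
      refine ⟨by positivity, ?_⟩
      have h6 : d n * w n ≤ B' * (b + B') := mul_le_mul (hex n) (hw n) h3.le hB0.le
      exact div_le_div₀ (by positivity) h6 ha (hu n)) (by positivity)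
  have hmn : v (d m) < v (d n) := by
    rw [hv n, hv m]
    push_cast
    have : (n : ℤ) < m := by exact_mod_cast hnm
    omega
  obtain ⟨h0, h1⟩ := hVDI a b (d n) (u n) (w n) (d m) (u m) (w m) ha hb (ht n) (ht m) (hva n) (hvb n) hmn
  have h2 := hDIF a b (d n) (u n) (w n) (d m) (u m) (w m) ha hb (ht n) (ht m) h0
  have h3 := hDSZ a b (d n) (u n) (w n) (d m) (u m) (w m) B' ha hb hB0 (ht n) (ht m) (hex n) (hex m) h0 hlt
  refine ⟨_, h2, lt_of_le_of_lt hB1 h3, ?_, ?_, ?_⟩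
  · rw [h1]; exact hvr n
  · rw [h1]; exact hva n
  · rw [h1]; exact hvb n

end Pool.EBK
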